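import Pool.Agent.H51.SqEuclid

namespace Pool.Agent.Results.MP_23f460_nt.InfinitelyMany
open Pool.Agent.H51.QFDefs IsDedekindDomain NumberField

/-- There is a Hasse domain (the ring of `S`-integers of the rationals for a finite set `S` of
finite places, together with the archimedean place) carrying infinitely many pairwise
non-isomorphic nondegenerate anisotropic Euclidean quadratic forms. -/
theorem result : ∃ S : Set (HeightOneSpectrum (𝓞 ℚ)), S.Finite ∧
    ∃ (n : ℕ → ℕ) (q : ∀ i, Fin (n i) → Fin (n i) → S.integer ℚ),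
      (∀ i, 1 ≤ n i ∧ Nondegenerate (q i) ℚ ∧ Anisotropic (q i) ℚ ∧ IsEuclidean (q i) ℚ) ∧
      ∀ i j, i ≠ j → ¬ Isomorphic (q i) (q j) :=
  Pool.Agent.H51.SqEuclid.main

end Pool.Agent.Results.MP_23f460_nt.InfinitelyMany
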